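import Pool.Agent.Q289.SW5

/-!
# MP_d47c21: the number of binary subword complexity sequences is not asymptotic to `2 ^ (n / 2)`

`a_2(n) ≤ C c ^ n` with `c < √2`. Sketch: let `s_j = p(j+1) - p(j)`. By counting bispecial words,
`s_(j+1) ≤ 2 s_j`, and a step `s_i = 1`, `s_(i+1) = 2` needs a strong bispecial word of length
`i`; between two such steps there is a weak bispecial word, and at most three lengths in
`[i, 3i/2]` carry a weak bispecial word (up to the two levels where the prefix and the suffix
become unique). So there are `o(n)` steps from `1` to `2`, and the number of compositions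
`∑ (s_j + 1) = n` with these two constraints is `O(c ^ n)` with `c < √2`.
-/

set_option autoImplicit false

namespace Pool.Agent.Results.MP_d47c21_co.ComplexitySequencesFew

open Filter

/-- `p_w(m)`: the number of distinct subwords (factors) of length `m` of `w` -/
noncomputable def factorCount {α : Type*} (w : List α) (m : ℕ) : ℕ :=
  {u : List α | u <:+: w ∧ u.length = m}.ncard

/-- the subword complexity sequence `(p_w(1), …, p_w(n))`, where `n` is the length of `w` -/
noncomputable def complexitySeq {α : Type*} (w : List α) : List ℕ :=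
  (List.range w.length).map fun i => factorCount w (i + 1)

/-- `a_k(n)`: the number of distinct vectors `p_w`, `w` a word of length `n` over `k` letters -/
noncomputable def a (k n : ℕ) : ℕ :=
  {p : List ℕ | ∃ w : List (Fin k), w.length = n ∧ complexitySeq w = p}.ncard

/-- `a_2(n) / 2 ^ (n / 2)` does not tend to `1`; it tends to `0`, and `a_2(n) ≤ C c ^ n` for some
`c < √2`. -/
theorem result :
    (¬ Tendsto (fun n : ℕ => (a 2 n : ℝ) / (2 : ℝ) ^ ((n : ℝ) / 2)) atTop (nhds 1)) ∧
    Tendsto (fun n : ℕ => (a 2 n : ℝ) / (2 : ℝ) ^ ((n : ℝ) / 2)) atTop (nhds 0) ∧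
    ∃ C c : ℝ, 0 < c ∧ c < Real.sqrt 2 ∧ ∀ n : ℕ, (a 2 n : ℝ) ≤ C * c ^ n := by
  have h0 : Tendsto (fun n : ℕ => (a 2 n : ℝ) / (2 : ℝ) ^ ((n : ℝ) / 2)) atTop (nhds 0) :=
    Pool.Agent.Q289.SW.tendsto_zero
  refine ⟨fun h1 => ?_, h0, Pool.Agent.Q289.SW.exp_bound⟩
  exact zero_ne_one (tendsto_nhds_unique h0 h1)

end Pool.Agent.Results.MP_d47c21_co.ComplexitySequencesFew
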